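import Pool.Agent.SNP.E.Defs
import Pool.Agent.SNP.D.Defs

/-!
# SNP-E-ALL: from infinite orbits to all orbits
-/

set_option autoImplicit false

namespace Pool.Agent.SNP

open Pool.Agent.Helper59.DML Pool.Agent.Helper59.UQ

section bind

variable {ι : Type} [Fintype ι] (J : ι → Prop) [DecidablePred J] (u : ι → Fin 2 → ℂ)

/-- substitute constants for the pairs of variables outside of `J`. -/
noncomputable def sbst (x : ι × Fin 2) : MvPolynomial ({i // J i} × Fin 2) ℂ :=
  if h : J x.1 then MvPolynomial.X (⟨x.1, h⟩, x.2) else MvPolynomial.C (u x.1 x.2)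

theorem sbst_inj : Function.Injective (fun x : {i // J i} × Fin 2 => ((x.1 : ι), x.2)) := by
  rintro ⟨⟨a, ha⟩, b⟩ ⟨⟨a', ha'⟩, b'⟩ h
  simp only [Prod.mk.injEq] at h
  obtain ⟨rfl, rfl⟩ := h
  rfl

theorem bind_monomial (m : ι × Fin 2 →₀ ℕ) (a : ℂ) :
    ∃ b : ℂ, MvPolynomial.bind₁ (sbst J u) (MvPolynomial.monomial m a) =
      MvPolynomial.monomial (m.comapDomain (fun x : {i // J i} × Fin 2 => ((x.1 : ι), x.2)) (sbst_inj J).injOn) b := by
  classical
  refine ⟨a * ∏ x : {x : ι × Fin 2 // ¬ J x.1}, u x.1.1 x.1.2 ^ m x.1, ?_⟩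
  rw [MvPolynomial.bind₁_monomial]
  have h1 : ∏ i ∈ m.support, sbst J u i ^ m i = ∏ x : ι × Fin 2, sbst J u x ^ m x := by
    refine Finset.prod_subset (Finset.subset_univ _) fun x _ hx => ?_
    rw [Finsupp.notMem_support_iff.1 hx, pow_zero]
  rw [h1, ← Fintype.prod_subtype_mul_prod_subtype (fun x : ι × Fin 2 => J x.1) (fun x => sbst J u x ^ m x)]
  have h2 : ∏ x : {x : ι × Fin 2 // ¬ J x.1}, sbst J u x.1 ^ m x.1 =
      MvPolynomial.C (∏ x : {x : ι × Fin 2 // ¬ J x.1}, u x.1.1 x.1.2 ^ m x.1) := by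
    rw [map_prod]
    refine Finset.prod_congr rfl fun x _ => ?_
    rw [sbst, dif_neg x.2, map_pow]
  have h3 : ∏ x : {x : ι × Fin 2 // J x.1}, sbst J u x.1 ^ m x.1 =
      ∏ y : {i // J i} × Fin 2, (MvPolynomial.X y : MvPolynomial ({i // J i} × Fin 2) ℂ) ^ m ((y.1 : ι), y.2) := by
    refine Fintype.prod_equiv ⟨fun x => (⟨x.1.1, x.2⟩, x.1.2), fun y => ⟨((y.1 : ι), y.2), y.1.2⟩, fun _ => rfl, fun _ => rfl⟩ _ _
      fun x => ?_
    rw [sbst, dif_pos x.2]
    rfl
  rw [h2, h3, MvPolynomial.monomial_eq, Finsupp.prod_fintype _ _ (fun i => by simp)]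
  simp only [Finsupp.comapDomain_apply, map_mul]
  ring

theorem multiHom_bind {H : MvPolynomial (ι × Fin 2) ℂ} (hH : MultiHom H) :
    MultiHom (MvPolynomial.bind₁ (sbst J u) H) := by
  classical
  rintro ⟨i, hi⟩
  obtain ⟨e, he⟩ := hH i
  refine ⟨e, fun m hm => ?_⟩
  rw [MvPolynomial.as_sum H, map_sum] at hm
  obtain ⟨m', hm', hm2⟩ := Finset.mem_biUnion.1 (MvPolynomial.support_sum hm)
  obtain ⟨b, hb⟩ := bind_monomial J u m' (MvPolynomial.coeff m' H)
  rw [hb] at hm2
  have h1 := MvPolynomial.support_monomial_subset hm2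
  rw [Finset.mem_singleton] at h1
  rw [h1, Finsupp.comapDomain_apply, Finsupp.comapDomain_apply]
  exact he m' hm'

theorem eval_bind (H : MvPolynomial (ι × Fin 2) ℂ) (w : {i // J i} → Fin 2 → ℂ) :
    MvPolynomial.eval (fun y : {i // J i} × Fin 2 => w y.1 y.2) (MvPolynomial.bind₁ (sbst J u) H) =
      MvPolynomial.eval (fun x : ι × Fin 2 => if h : J x.1 then w ⟨x.1, h⟩ x.2 else u x.1 x.2) H := by
  have h1 := MvPolynomial.eval₂Hom_bind₁ (RingHom.id ℂ) (fun y : {i // J i} × Fin 2 => w y.1 y.2) (sbst J u) H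
  have h2 : (fun i => (MvPolynomial.eval₂Hom (RingHom.id ℂ) (fun y : {i // J i} × Fin 2 => w y.1 y.2)) (sbst J u i)) =
      fun x : ι × Fin 2 => if h : J x.1 then w ⟨x.1, h⟩ x.2 else u x.1 x.2 := by
    funext x
    rw [sbst]
    split_ifs with h
    · simp
    · simp
  rw [h2] at h1
  exact h1

end bind

theorem EP.comp_mul {S : ℕ → Prop} (h : EP S) {P : ℕ} (hP : 0 < P) (r : ℕ) : EP (fun k => S (P * k + r)) := by
  obtain ⟨n₀, Q, hQ, h⟩ := h
  refine ⟨n₀, Q, hQ, fun k hk => ?_⟩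
  have h1 := ep_mul h P (P * k + r) (by nlinarith)
  have h2 : P * (k + Q) + r = P * k + r + P * Q := by ring
  show S (P * k + r) ↔ S (P * (k + Q) + r)
  rw [h2]
  exact h1

/-- the orbit of a point is infinite or eventually periodic. -/
theorem dich {d : ℕ} {c : Fin 2 → Fin (d + 1) → ℂ} (hc : ∀ u : Fin 2 → ℂ, u ≠ 0 → hlift c u ≠ 0) {v : Fin 2 → ℂ}
    (hv : v ≠ 0) (h : ¬ InfOrb c v) :
    ∃ n₀ P, 0 < P ∧ ∀ n, n₀ ≤ n → det2 ((hlift c)^[n] v) ((hlift c)^[n + P] v) = 0 := by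
  unfold InfOrb at h
  push Not at h
  obtain ⟨m, n, hmn, h0⟩ := h
  have hne : ∀ n, (hlift c)^[n] v ≠ 0 := by
    intro n
    induction n with
    | zero => exact hv
    | succ n ih => rw [Function.iterate_succ_apply']; exact hc _ ih
  have key : ∀ m n, m < n → det2 ((hlift c)^[m] v) ((hlift c)^[n] v) = 0 →
      ∃ n₀ P, 0 < P ∧ ∀ n, n₀ ≤ n → det2 ((hlift c)^[n] v) ((hlift c)^[n + P] v) = 0 := by
    intro m n hmn h0
    refine ⟨m, n - m, by omega, fun k hk => ?_⟩
    have h1 := hlift_det2 c (k - m) (hne m) h0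
    rw [← Function.iterate_add_apply, ← Function.iterate_add_apply] at h1
    have e1 : k - m + m = k := by omega
    have e2 : k - m + n = k + (n - m) := by omega
    rwa [e1, e2] at h1
  rcases lt_or_gt_of_ne hmn with h | h
  · exact key m n h h0
  · exact key n m h (det2_symm h0)

theorem all_of_main (hmain : MAIN) : ALL := by
  classical
  intro ι _ d c hc v hv H hH
  have hne : ∀ i n, (hlift (c i))^[n] (v i) ≠ 0 := by
    intro i n
    induction n with
    | zero => exact hv i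
    | succ n ih => rw [Function.iterate_succ_apply']; exact hc i _ ih
  -- common period of the finite orbits
  have hfin : ∀ i, ∃ n₀ P, 0 < P ∧ (¬ InfOrb (c i) (v i) →
      ∀ n, n₀ ≤ n → det2 ((hlift (c i))^[n] (v i)) ((hlift (c i))^[n + P] (v i)) = 0) := by
    intro i
    by_cases h : InfOrb (c i) (v i)
    · exact ⟨0, 1, one_pos, fun h' => absurd h h'⟩
    · obtain ⟨n₀, P, hP, h1⟩ := dich (hc i) (hv i) h
      exact ⟨n₀, P, hP, fun _ => h1⟩
  choose n₀ P hP hper using hfin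
  obtain ⟨Q, hQ⟩ : ∃ Q, Q = ∏ i, P i := ⟨_, rfl⟩
  have hQ0 : 0 < Q := by rw [hQ]; exact Finset.prod_pos fun i _ => hP i
  have hPQ : ∀ i, P i ∣ Q := fun i => by rw [hQ]; exact Finset.dvd_prod_of_mem _ (Finset.mem_univ i)
  obtain ⟨m₀, hm₀⟩ : ∃ m₀, m₀ = Finset.univ.sup n₀ := ⟨_, rfl⟩
  have hn₀ : ∀ i, n₀ i ≤ m₀ := fun i => by rw [hm₀]; exact Finset.le_sup (Finset.mem_univ i)
  have hper2 : ∀ i, ¬ InfOrb (c i) (v i) → ∀ n k, m₀ ≤ n →
      det2 ((hlift (c i))^[n] (v i)) ((hlift (c i))^[n + P i * k] (v i)) = 0 := by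
    intro i hi n k hn
    induction k with
    | zero => rw [mul_zero, add_zero]; exact det2_self _
    | succ k ih =>
      have h1 := hper i hi (n + P i * k) (by have := hn₀ i; omega)
      have h2 := det2_trans (hne i _) ih h1
      have e : n + P i * (k + 1) = n + P i * k + P i := by ring
      rw [e]
      exact h2
  refine EP.of_shift m₀ (EP.of_classes hQ0 fun r _ => ?_)
  -- the equation with the constants substituted
  obtain ⟨u, hu⟩ : ∃ u : ι → Fin 2 → ℂ, u = fun i => (hlift (c i))^[r + m₀] (v i) := ⟨_, rfl⟩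
  have h1 := hmain {i // InfOrb (c i) (v i)} (fun i => d i.1) (fun i => by
      rcases Nat.eq_zero_or_pos (d i.1) with h0 | h0
      · exfalso
        have h2 := i.2 1 2 (by omega)
        apply h2
        have h3 : ∀ w w' : Fin 2 → ℂ, hlift (c i.1) w = hlift (c i.1) w' := by
          intro w w'
          funext k
          have h4 : ∀ (j : Fin (d i.1 + 1)), (j : ℕ) = 0 := fun j => by have := j.2; omega
          simp only [hlift, form]
          refine Finset.sum_congr rfl fun j _ => ?_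
          rw [h4 j, h0]
          simp
        have e1 : (hlift (c i.1))^[1] (v i.1) = hlift (c i.1) (v i.1) := rfl
        have e2 : (hlift (c i.1))^[2] (v i.1) = hlift (c i.1) (hlift (c i.1) (v i.1)) := rfl
        rw [e1, e2, h3 (hlift (c i.1) (v i.1)) (v i.1)]
        exact det2_self _
      · exact h0)
    (fun i => c i.1) (fun i => hc i.1) (fun i => v i.1) (fun i => hv i.1) (fun i => i.2)
    (MvPolynomial.bind₁ (sbst (fun i => InfOrb (c i) (v i)) u) H) (multiHom_bind _ u hH)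
  have h2 : EP (fun n => MvPolynomial.eval (fun x : ι × Fin 2 => if h : InfOrb (c x.1) (v x.1) then
      (hlift (c x.1))^[n] (v x.1) x.2 else u x.1 x.2) H = 0) := by
    refine h1.congr fun n => ?_
    rw [eval_bind (fun i => InfOrb (c i) (v i)) u H (fun i => (hlift (c i.1))^[n] (v i.1))]
  refine (EP.comp_mul h2 hQ0 (r + m₀)).congr fun k => ?_
  -- compare
  have e0 : Q * k + r + m₀ = Q * k + (r + m₀) := by ring
  rw [e0]
  have hμ : ∀ i, ∃ μ : ℂ, μ ≠ 0 ∧ (if InfOrb (c i) (v i) then (hlift (c i))^[Q * k + (r + m₀)] (v i) else u i) =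
      fun q => μ * (hlift (c i))^[Q * k + (r + m₀)] (v i) q := by
    intro i
    by_cases hi : InfOrb (c i) (v i)
    · refine ⟨1, one_ne_zero, ?_⟩
      rw [if_pos hi]
      funext q
      rw [one_mul]
    · rw [if_neg hi]
      obtain ⟨l, hl⟩ := hPQ i
      have h3 := hper2 i hi (r + m₀) (l * k) (by omega)
      have e1 : r + m₀ + P i * (l * k) = Q * k + (r + m₀) := by rw [hl]; ring
      rw [e1] at h3
      obtain ⟨μ, h4⟩ := eq_smul_of_det2 (hne i _) (det2_symm h3)
      refine ⟨μ, ?_, by rw [hu]; exact h4⟩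
      rintro rfl
      refine hne i (r + m₀) (funext fun q => ?_)
      rw [h4]
      simp
  choose μ hμ0 hμ1 using hμ
  obtain ⟨e, he⟩ := hH.mhom
  have h5 := he μ (fun i => (hlift (c i))^[Q * k + (r + m₀)] (v i))
  have h6 : (fun x : ι × Fin 2 => if h : InfOrb (c x.1) (v x.1) then
      (hlift (c x.1))^[Q * k + (r + m₀)] (v x.1) x.2 else u x.1 x.2) =
      fun x => μ x.1 * (hlift (c x.1))^[Q * k + (r + m₀)] (v x.1) x.2 := by
    funext x
    have := congrFun (hμ1 x.1) x.2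
    rw [← this]
    split_ifs <;> rfl
  rw [h6, h5, mul_eq_zero]
  have n1 : (∏ i, μ i ^ e i) ≠ 0 := Finset.prod_ne_zero_iff.2 fun i _ => pow_ne_zero _ (hμ0 i)
  simp only [n1, false_or]

end Pool.Agent.SNP
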