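import Pool.Agent.SNP.Final
import Pool.Agent.SNP.E.All

/-!
# SNP-E-AFF: split polynomial maps of affine space, all closed subvarieties, from `ALL`
-/

set_option autoImplicit false

namespace Pool.Agent.SNP

open Pool.Agent.Helper59.DML

/-- the homogeneous lift of a polynomial. -/
private noncomputable def pcf (f : Polynomial ℂ) : Fin 2 → Fin (f.natDegree + 1) → ℂ :=
  ![fun j => f.coeff j, fun j => if (j : ℕ) = 0 then 1 else 0]

private theorem form_pcf_one (f : Polynomial ℂ) (v : Fin 2 → ℂ) :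
    form (pcf f 1) v = v 1 ^ f.natDegree := by
  have h : pcf f 1 = fun j : Fin (f.natDegree + 1) => if (j : ℕ) = 0 then (1 : ℂ) else 0 := rfl
  rw [h, form, Fin.sum_univ_succ]
  simp

private theorem form_pcf_zero (f : Polynomial ℂ) (x : ℂ) :
    form (pcf f 0) ![x, 1] = f.eval x := by
  have h : pcf f 0 = fun j : Fin (f.natDegree + 1) => f.coeff j := rfl
  rw [h, form, Polynomial.eval_eq_sum_range, Finset.sum_range]
  simp

private theorem hlift_pcf (f : Polynomial ℂ) (x : ℂ) : hlift (pcf f) ![x, 1] = ![f.eval x, 1] := by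
  funext k
  fin_cases k
  · exact form_pcf_zero f x
  · show form (pcf f 1) ![x, 1] = 1
    rw [form_pcf_one]
    simp

private theorem hlift_pcf_iter (f : Polynomial ℂ) (x : ℂ) (n : ℕ) :
    (hlift (pcf f))^[n] ![x, 1] = ![(fun y => f.eval y)^[n] x, 1] := by
  induction n with
  | zero => rfl
  | succ n ih => rw [Function.iterate_succ_apply', ih, hlift_pcf, Function.iterate_succ_apply']

private theorem hlift_pcf_ne (f : Polynomial ℂ) (u : Fin 2 → ℂ) (hu : u ≠ 0) : hlift (pcf f) u ≠ 0 := by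
  intro h0
  have h1 : form (pcf f 1) u = 0 := congrFun h0 1
  have h2 : form (pcf f 0) u = 0 := congrFun h0 0
  rw [form_pcf_one] at h1
  have hd : f.natDegree ≠ 0 := by
    intro hd
    rw [hd, pow_zero] at h1
    exact one_ne_zero h1
  have h3 : u 1 = 0 := (pow_eq_zero_iff hd).1 h1
  have h4 : u 0 ≠ 0 := by
    intro h4
    apply hu
    funext k
    fin_cases k
    · exact h4
    · exact h3
  have h5 : form (pcf f 0) u = f.leadingCoeff * u 0 ^ f.natDegree := by
    have h : pcf f 0 = fun j : Fin (f.natDegree + 1) => f.coeff j := rfl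
    rw [h, form, Fin.sum_univ_castSucc]
    have h6 : ∀ j : Fin f.natDegree, f.coeff ((Fin.castSucc j : Fin (f.natDegree + 1)) : ℕ) *
        u 0 ^ ((Fin.castSucc j : Fin (f.natDegree + 1)) : ℕ) *
        u 1 ^ (f.natDegree - ((Fin.castSucc j : Fin (f.natDegree + 1)) : ℕ)) = 0 := by
      intro j
      have h7 : f.natDegree - ((Fin.castSucc j : Fin (f.natDegree + 1)) : ℕ) ≠ 0 := by
        have := j.2
        rw [Fin.val_castSucc]
        omega
      rw [h3, zero_pow h7, mul_zero]
    rw [Finset.sum_eq_zero fun j _ => h6 j, Fin.val_last, Nat.sub_self, pow_zero, mul_one, zero_add]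
    rfl
  rw [h5] at h2
  rcases mul_eq_zero.1 h2 with h6 | h6
  · rw [Polynomial.leadingCoeff_eq_zero] at h6
    rw [h6] at hd
    exact hd Polynomial.natDegree_zero
  · exact h4 (pow_eq_zero_iff hd |>.1 h6)

variable {N : ℕ}

/-- exponents of the multihomogenisation. -/
private noncomputable def hexp (D : Fin N → ℕ) (m : Fin N →₀ ℕ) : (Fin N × Fin 2) →₀ ℕ :=
  Finsupp.equivFunOnFinite.symm fun x => if x.2 = 0 then m x.1 else D x.1 - m x.1

private theorem hexp_zero (D : Fin N → ℕ) (m : Fin N →₀ ℕ) (i : Fin N) : hexp D m (i, 0) = m i := by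
  simp [hexp]

private theorem hexp_one (D : Fin N → ℕ) (m : Fin N →₀ ℕ) (i : Fin N) : hexp D m (i, 1) = D i - m i := by
  simp [hexp]

/-- the multihomogenisation of a polynomial. -/
private noncomputable def mhomog (p : MvPolynomial (Fin N) ℂ) : MvPolynomial (Fin N × Fin 2) ℂ :=
  ∑ m ∈ p.support, MvPolynomial.monomial (hexp (fun i => p.degreeOf i) m) (p.coeff m)

private theorem multiHom_mhomog (p : MvPolynomial (Fin N) ℂ) : MultiHom (mhomog p) := by
  classical
  intro i
  refine ⟨p.degreeOf i, fun m hm => ?_⟩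
  obtain ⟨m', hm', hm2⟩ := Finset.mem_biUnion.1 (MvPolynomial.support_sum hm)
  have h1 : m = hexp (fun i => p.degreeOf i) m' := by
    have h2 := MvPolynomial.support_monomial_subset hm2
    exact Finset.mem_singleton.1 h2
  rw [h1, hexp_zero, hexp_one]
  have h3 : m' i ≤ p.degreeOf i := MvPolynomial.monomial_le_degreeOf i hm'
  omega

private theorem eval_mhomog (p : MvPolynomial (Fin N) ℂ) (x : Fin N → ℂ) :
    MvPolynomial.eval (fun y : Fin N × Fin 2 => (![x y.1, 1] : Fin 2 → ℂ) y.2) (mhomog p) =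
      MvPolynomial.eval x p := by
  classical
  rw [mhomog, map_sum, MvPolynomial.eval_eq']
  refine Finset.sum_congr rfl fun m _ => ?_
  rw [MvPolynomial.eval_monomial, Finsupp.prod_fintype _ _ (fun i => by simp), Fintype.prod_prod_type]
  congr 1
  refine Finset.prod_congr rfl fun i _ => ?_
  rw [Fin.prod_univ_two, hexp_zero, hexp_one]
  simp

/-- eventual periodicity for one polynomial equation. -/
theorem ep_affine_one (f : Fin N → Polynomial ℂ) (α : Fin N → ℂ) (p : MvPolynomial (Fin N) ℂ) :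
    EP (fun n => MvPolynomial.eval ((fun (x : Fin N → ℂ) i => (f i).eval (x i))^[n] α) p = 0) := by
  have key := all (Fin N) (fun i => (f i).natDegree) (fun i => pcf (f i)) (fun i => hlift_pcf_ne (f i))
    (fun i => ![α i, 1]) (fun i h => by
      have := congrFun h 1
      simp at this) (mhomog p) (multiHom_mhomog p)
  refine key.congr fun n => ?_
  have h1 : ∀ n i, (fun (x : Fin N → ℂ) i => (f i).eval (x i))^[n] α i = (fun y => (f i).eval y)^[n] (α i) := by
    intro n
    induction n with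
    | zero => intro i; rfl
    | succ n ih =>
      intro i
      rw [Function.iterate_succ_apply', Function.iterate_succ_apply', ih]
  have h2 : (fun x : Fin N × Fin 2 => (hlift (pcf (f x.1)))^[n] ![α x.1, 1] x.2) =
      fun y : Fin N × Fin 2 => (![((fun (x : Fin N → ℂ) i => (f i).eval (x i))^[n] α) y.1, 1] : Fin 2 → ℂ) y.2 := by
    funext y
    rw [hlift_pcf_iter, h1]
  rw [h2, eval_mhomog]

/-- a set of polynomials may be replaced by a finite set. -/
private theorem exists_finset (S : Set (MvPolynomial (Fin N) ℂ)) : ∃ T : Finset (MvPolynomial (Fin N) ℂ),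
    ∀ x : Fin N → ℂ, (∀ p ∈ S, MvPolynomial.eval x p = 0) ↔ ∀ p ∈ T, MvPolynomial.eval x p = 0 := by
  obtain ⟨T, hT⟩ := (isNoetherianRing_iff_ideal_fg _).1 (inferInstance : IsNoetherianRing (MvPolynomial (Fin N) ℂ))
    (Ideal.span S)
  refine ⟨T, fun x => ?_⟩
  have h1 : (∀ p ∈ S, MvPolynomial.eval x p = 0) ↔ Ideal.span S ≤ RingHom.ker (MvPolynomial.eval x) := by
    rw [Ideal.span_le]
    exact ⟨fun h p hp => (RingHom.mem_ker).2 (h p hp), fun h p hp => (RingHom.mem_ker).1 (h hp)⟩
  have h2 : (∀ p ∈ T, MvPolynomial.eval x p = 0) ↔ Ideal.span (T : Set (MvPolynomial (Fin N) ℂ)) ≤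
      RingHom.ker (MvPolynomial.eval x) := by
    rw [Ideal.span_le]
    exact ⟨fun h p hp => (RingHom.mem_ker).2 (h p hp), fun h p hp => (RingHom.mem_ker).1 (h hp)⟩
  rw [h1, h2, hT]

/-- eventual periodicity for any closed subset of affine space. -/
theorem ep_affine (f : Fin N → Polynomial ℂ) (α : Fin N → ℂ) (S : Set (MvPolynomial (Fin N) ℂ)) :
    EP (fun n => ∀ p ∈ S, MvPolynomial.eval ((fun (x : Fin N → ℂ) i => (f i).eval (x i))^[n] α) p = 0) := by
  obtain ⟨T, hT⟩ := exists_finset S
  have h := EP.forall_mem (S := fun p n =>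
    MvPolynomial.eval ((fun (x : Fin N → ℂ) i => (f i).eval (x i))^[n] α) p = 0) T
    (fun p _ => ep_affine_one f α p)
  exact h.congr fun n => (hT _).symm

/-- an eventually periodic set is a finite union of arithmetic progressions. -/
theorem EP_union {S : ℕ → Prop} (h : EP S) : ∃ T : Finset (ℕ × ℕ),
    {n | S n} = ⋃ t ∈ T, {n | ∃ k : ℕ, n = t.1 + k * t.2} := by
  classical
  obtain ⟨n₀, P, hP, h⟩ := h
  refine ⟨((Finset.range n₀).filter S).image (fun n => (n, 0)) ∪
    ((Finset.Ico n₀ (n₀ + P)).filter S).image (fun n => (n, P)), ?_⟩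
  ext n
  simp only [Set.mem_ofPred_eq, Set.mem_iUnion, exists_prop, Finset.mem_union, Finset.mem_image, Finset.mem_filter,
    Finset.mem_range, Finset.mem_Ico]
  constructor
  · intro hn
    rcases Nat.lt_or_ge n n₀ with h1 | h1
    · exact ⟨(n, 0), Or.inl ⟨n, ⟨h1, hn⟩, rfl⟩, 0, by simp⟩
    · refine ⟨(n₀ + (n - n₀) % P, P), Or.inr ⟨n₀ + (n - n₀) % P, ⟨⟨Nat.le_add_right _ _, ?_⟩, ?_⟩, rfl⟩,
        (n - n₀) / P, ?_⟩
      · have := Nat.mod_lt (n - n₀) hP
        omega
      · rw [ep_mul h ((n - n₀) / P) _ (Nat.le_add_right _ _)]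
        have e : n₀ + (n - n₀) % P + (n - n₀) / P * P = n := by
          have := Nat.mod_add_div (n - n₀) P
          rw [mul_comm] at this
          omega
        rwa [e]
      · have := Nat.mod_add_div (n - n₀) P
        rw [mul_comm] at this
        show n = n₀ + (n - n₀) % P + (n - n₀) / P * P
        omega
  · rintro ⟨t, (⟨m, ⟨hm1, hm2⟩, rfl⟩ | ⟨m, ⟨hm1, hm2⟩, rfl⟩), k, hk⟩
    · simp only [mul_zero, add_zero] at hk
      rw [hk]
      exact hm2
    · rw [hk]
      exact (ep_mul h k m hm1.1).1 hm2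

end Pool.Agent.SNP
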