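import Pool.Agent.SNP.Iface

/-!
# Project SNP: dynamical Mordell-Lang for all split maps of `(P^1)^ι`, all starting points
-/

set_option autoImplicit false

namespace Pool.Agent.SNP

open Pool.Agent.Helper59.DML

/-- **Dynamical Mordell-Lang for split maps** of `(P^1)^ι` over `ℂ`, all starting points, one multihomogeneous equation. -/
def ALL : Prop := ∀ (ι : Type) [Fintype ι] (d : ι → ℕ)
  (c : (i : ι) → Fin 2 → Fin (d i + 1) → ℂ) (_ : ∀ i, ∀ u : Fin 2 → ℂ, u ≠ 0 → hlift (c i) u ≠ 0)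
  (v : ι → Fin 2 → ℂ) (_ : ∀ i, v i ≠ 0) (H : MvPolynomial (ι × Fin 2) ℂ)
  (_ : MultiHom H),
  EP (fun n => MvPolynomial.eval (fun x => (hlift (c x.1))^[n] (v x.1) x.2) H = 0)

end Pool.Agent.SNP
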